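import Pool.Agent.H45.MErg

open Filter Topology Finset Pool.Agent.H45.MErg
open scoped ENNReal

namespace Pool.Agent.Results.MP_27f8b5_an.Counter

/-- the Cesaro means of `T` converge strongly -/
def MeanErgodic {X : Type} [NormedAddCommGroup X] [NormedSpace ℂ X] (T : X →L[ℂ] X) : Prop :=
  ∀ f, ∃ g, Tendsto (fun n : ℕ => (n : ℂ)⁻¹ • ∑ k ∈ range n, (T ^ k) f) atTop (𝓝 g)

/-- the powers of `T` are bounded in operator norm -/
def PowerBounded {X : Type} [NormedAddCommGroup X] [NormedSpace ℂ X] (T : X →L[ℂ] X) : Prop :=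
  BddAbove (Set.range fun n : ℕ => ‖T ^ n‖)

/-- `h = μ * f` -/
def IsConv {G : Type} [Group G] (μ : G → ℝ) (f h : G → ℂ) : Prop :=
  ∀ x, HasSum (fun y => (μ y : ℂ) * f (y⁻¹ * x)) (h x)

/-- on the function space `X` (`ev f` is the function on `G` underlying `f`) some convolution operator
by a summable `μ` is mean ergodic and not power bounded -/
def Bad {G : Type} [Group G] (X : Type) [NormedAddCommGroup X] [NormedSpace ℂ X] (ev : X → G → ℂ) :
    Prop :=
  ∃ (μ : G → ℝ) (T : X →L[ℂ] X), Summable (|μ ·|) ∧ (∀ f, IsConv μ (ev f) (ev (T f))) ∧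
    MeanErgodic T ∧ ¬ PowerBounded T

variable {G : Type} [Group G] (p : ℝ≥0∞) [Fact (1 ≤ p)] (hp : 0 < p.toReal)

def sh (g : G) : lp (fun _ : G => ℂ) p →ₗ[ℂ] lp (fun _ : G => ℂ) p where
  toFun := fun f => ⟨fun x => f (g⁻¹ * x), memℓp_gen
    ((Equiv.mulLeft g⁻¹).summable_iff.2 ((lp.memℓp f).summable hp))⟩
  map_add' := fun _ _ => rfl
  map_smul' := fun _ _ => rfl

omit [Fact (1 ≤ p)] in
lemma nsh (g : G) (f : lp (fun _ : G => ℂ) p) : ‖sh p hp g f‖ ≤ 1 * ‖f‖ := by
  rw [one_mul, lp.norm_eq_tsum_rpow hp, lp.norm_eq_tsum_rpow hp,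
    ← (Equiv.mulLeft g⁻¹).tsum_eq fun x => ‖f x‖ ^ p.toReal]
  rfl

noncomputable def U : G →* lp (fun _ : G => ℂ) p →L[ℂ] lp (fun _ : G => ℂ) p where
  toFun g := (sh p hp g).mkContinuous 1 (nsh p hp g)
  map_one' := by ext f x; change f (1⁻¹ * x) = f x; simp
  map_mul' g h := by ext f x; change f ((g * h)⁻¹ * x) = f (h⁻¹ * (g⁻¹ * x)); simp [mul_assoc]

lemma nU (g : G) : ‖U p hp g‖ ≤ 1 := LinearMap.mkContinuous_norm_le _ zero_le_one (nsh p hp g)

omit [Group G] in
lemma l1 (μ : lp (fun _ : G => ℝ) 1) : HasSum (fun y => ‖μ y‖) ‖μ‖ := by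
  simpa using lp.hasSum_norm (p := 1) (by simp) μ

lemma bd1 (μ : G → ℝ) (y : G) : ‖μ y • U p hp y‖ ≤ ‖μ y‖ := by grw [norm_smul, nU, mul_one]

lemma sm (μ : lp (fun _ : G => ℝ) 1) : Summable fun y => μ y • U p hp y :=
  .of_norm_bounded (l1 μ).summable (bd1 p hp μ)

noncomputable def L : lp (fun _ : G => ℝ) 1 →L[ℝ] lp (fun _ : G => ℂ) p →L[ℂ] lp (fun _ : G => ℂ) p :=
  LinearMap.mkContinuous
    { toFun := fun μ => ∑' y, μ y • U p hp y
      map_add' := fun μ ν => by simp [add_smul, (sm p hp μ).tsum_add (sm p hp ν)]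
      map_smul' := fun t μ => by simp [mul_smul, (sm p hp μ).tsum_const_smul] } 1 fun μ => by
    simpa using tsum_of_norm_bounded (l1 μ) (bd1 p hp μ)

lemma nL (μ : lp (fun _ : G => ℝ) 1) : ‖L p hp μ‖ ≤ ‖μ‖ := tsum_of_norm_bounded (l1 μ) (bd1 p hp μ)

lemma rep (R : ℕ → G) (j : ℕ) (g : G) :
    ∃ μ, ‖μ‖ ≤ 1 ∧ L p hp μ = U p hp g * E (fun i => U p hp (R i)) j := by
  classical
  induction j generalizing g with
  | zero =>
    refine ⟨lp.single 1 g 1, by simp, (tsum_eq_single g fun y hy => ?_).trans ?_⟩ <;>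
      simp [E, lp.single_apply, *]
  | succ j ih =>
    obtain ⟨x, hx, ex⟩ := ih g
    obtain ⟨y, hy, ey⟩ := ih (g * R j)
    obtain ⟨z, hz, ez⟩ := ih (g * (R j * R j))
    refine ⟨(1 / 3 : ℝ) • (x + y + z), ?_, ?_⟩
    · grw [norm_smul, norm_add₃_le, hx, hy, hz]; norm_num
    · rw [E_succ, map_smul, map_add, map_add, ex, ey, ez, map_mul, map_mul, map_mul]; rfl

theorem result : ∃ (G : Type) (_ : Group G), ∀ (p : ℝ≥0∞) [Fact (1 ≤ p)], p ≠ ∞ →
    Bad (lp (fun _ : G => ℂ) p) fun f x => f x := by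
  classical
  refine ⟨ℕ → Equiv.Perm (Fin 3), inferInstance, fun p _ hp' => ?_⟩
  have hp : 0 < p.toReal := ENNReal.toReal_pos (zero_lt_one.trans_le Fact.out).ne' hp'
  let r : ℕ → ℕ → Equiv.Perm (Fin 3) := fun j => Pi.mulSingle j (finRotate 3)
  let s : ℕ → ℕ → Equiv.Perm (Fin 3) := fun j => Pi.mulSingle j (Equiv.swap 0 1)
  let R := fun i => U p hp (r i)
  let S := fun i => U p hp (s i)
  obtain ⟨PP, PN, NP, NN, id⟩ := alg R S
    (fun j => by
      simp only [R, r, ← map_mul, ← Pi.mulSingle_mul]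
      rw [show finRotate 3 * (finRotate 3 * finRotate 3) = 1 by decide]; simp)
    (fun j => by simp [S, s, ← map_mul, ← Pi.mulSingle_mul])
    (fun j => by simp only [R, r, S, s, ← map_mul, ← Pi.mulSingle_mul]; congr 2; decide)
    (fun i j => by
      by_cases h : i = j
      exacts [h ▸ .refl _, (Pi.mulSingle_commute h _ _).map _])
    (fun i j h => (Pi.mulSingle_commute h _ _).map _) _ _ (fun _ => rfl) fun _ => rfl
  set P := fun j => E R j - E R (j + 1)
  set N := fun j => n R S j * E R j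
  choose m hm em using rep p hp r
  have rP : ∀ j, ∃ μ, ‖μ‖ ≤ 2 ∧ L p hp μ = P j := fun j => ⟨m j 1 - m (j + 1) 1,
    by grw [norm_sub_le, hm, hm]; norm_num, by simp [em, P, R]⟩
  have rN : ∀ j, ∃ μ, ‖μ‖ ≤ 4 ∧ L p hp μ = N j := fun j =>
    ⟨m j (r j) - m j (r j * r j) + (m j (s j * r j) - m j (s j * (r j * r j))),
      by grw [norm_add_le, norm_sub_le, norm_sub_le, hm, hm, hm, hm]; norm_num,
      by simp only [map_add, map_sub, em, N, n, R, S, map_mul]; noncomm_ring⟩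
  choose x hx ex using rP
  choose y hy ey using rN
  have val : ∀ j, (E R j (lp.single p 1 1)) 1 = (1 / 3) ^ j ∧
      ∀ z, (∃ i ≥ j, z i ≠ 1) → (E R j (lp.single p 1 1)) z = 0 := fun j => by
    induction j with
    | zero => exact ⟨by simp [E], fun z ⟨i, _, h⟩ => by
        simp [E, lp.single_apply, Pi.single_eq_of_ne (show z ≠ 1 from fun e => h (by simp [e]))]⟩
    | succ j ih =>
      have : ∀ z, (E R (j + 1) (lp.single p 1 1)) z = (1 / 3 : ℝ) • ((E R j (lp.single p 1 1)) z +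
        (E R j (lp.single p 1 1)) ((r j)⁻¹ * z) +
        (E R j (lp.single p 1 1)) ((r j)⁻¹ * ((r j)⁻¹ * z))) := fun z => rfl
      refine ⟨?_, fun z ⟨i, hi, h⟩ => ?_⟩
      · rw [this, ih.1, ih.2 _ ⟨j, le_rfl, by simp [r]; decide⟩, ih.2 _ ⟨j, le_rfl, by simp [r]; decide⟩]
        simp; ring
      · have : i ≠ j := by omega
        simp [*, ih.2 _ ⟨i, by omega, _⟩, r]
  have P1 : ∀ j, 1 ≤ ‖P j‖ := fun j => by
    have h0 : P j ≠ 0 := fun h => by
      have := congrArg (fun T => (T (lp.single p 1 1)) 1) h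
      simp [P, (val _).1, pow_succ, sub_eq_zero] at this
    have := norm_mul_le (P j) (P j)
    rw [PP, if_pos rfl] at this
    exact (le_mul_iff_one_le_right (norm_pos_iff.2 h0)).1 this
  have N1 : ∀ j, 1 ≤ ‖N j‖ := fun j => low (nU p hp _) (P1 j) (id j)
  have hs' : Summable fun j => (a j - 1) • x j + (c j * a j) • y j := .of_norm_bounded hs.summable
    fun j => by
      have := a_mem j
      have c0 : 0 < c j := by unfold c; positivity
      grw [norm_add_le, norm_smul, norm_smul, hx, hy, Real.norm_of_nonpos (by linarith),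
        Real.norm_of_nonneg (by nlinarith)]
      nlinarith
  have hU := hs'.hasSum.mapL (L p hp)
  simp only [map_add, map_smul, ex, ey] at hU
  set ν := ∑' j, ((a j - 1) • x j + (c j * a j) • y j)
  have e1 : L p hp (-(ν + m 0 1)) = -(L p hp ν + 1) := by simp [em, E]
  obtain ⟨h1, h2⟩ := core P N PP PN NP NN (fun j => ex j ▸ (nL p hp _).trans (hx j))
    (fun j => ey j ▸ (nL p hp _).trans (hy j)) N1 (L p hp ν + 1) (by rw [add_sub_cancel_right]; exact hU)
  rw [← e1] at h1 h2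
  generalize -(ν + m 0 1) = μ at h1 h2
  refine ⟨μ, L p hp μ, (l1 μ).summable, fun f z => ?_, fun f => ⟨0, ?_⟩, h2⟩
  · exact (sm p hp μ).hasSum.mapL (((lp.evalCLM ℂ _ p z).comp (.apply ℂ _ f)).restrictScalars ℝ)
  · have := ((ContinuousLinearMap.apply ℂ _ f).continuous.tendsto _).comp h1
    simpa [Function.comp_def, ← Complex.coe_smul] using this

end Pool.Agent.Results.MP_27f8b5_an.Counter
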